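import Pool.Agent.H715.C4.Reach
import Pool.Graph.R_seed8.H591R2.ThreeSq

/-!
# The integral pencils
-/

set_option autoImplicit false

open Polynomial

namespace Pool.Agent.H715.C4

/-- odd squares -/
lemma odd_sq {x : ℤ} (hx : x % 2 = 1) : ∃ p : ℤ, x ^ 2 = 8 * (p * (2 * p - 1)) + 1 := by
  rcases (show x % 4 = 3 ∨ x % 4 = 1 by omega) with h | h
  · obtain ⟨p, hp⟩ : ∃ p, x = 4 * p - 1 := ⟨(x + 1) / 4, by omega⟩
    exact ⟨p, by rw [hp]; ring⟩
  · obtain ⟨p, hp⟩ : ∃ p, x = -(4 * p - 1) := ⟨(1 - x) / 4, by omega⟩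
    exact ⟨p, by rw [hp]; ring⟩

/-- sums of three triangular numbers -/
lemma triangular (d : ℕ) : ∃ p q r : ℤ,
    (d : ℤ) = p * (2 * p - 1) + q * (2 * q - 1) + r * (2 * r - 1) := by
  obtain ⟨x, y, z, h⟩ := Pool.Agent.H591R2.three_squares (m := 8 * d + 3) (by omega)
  push_cast at h
  have sq4 : ∀ s : ℤ, s % 2 = 0 → s ^ 2 % 4 = 0 := by
    intro s hs
    obtain ⟨u, hu⟩ : ∃ u, s = 2 * u := ⟨s / 2, by omega⟩
    rw [hu, show (2 * u) ^ 2 = 4 * u ^ 2 by ring]
    omega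
  have sq8 : ∀ s : ℤ, s % 2 = 1 → s ^ 2 % 4 = 1 := by
    intro s hs
    obtain ⟨p, hp⟩ := odd_sq hs
    rw [hp]
    omega
  have key : ∀ s : ℤ, (s % 2 = 0 ∧ s ^ 2 % 4 = 0) ∨ (s % 2 = 1 ∧ s ^ 2 % 4 = 1) := by
    intro s
    rcases (show s % 2 = 0 ∨ s % 2 = 1 by omega) with h | h
    · exact Or.inl ⟨h, sq4 s h⟩
    · exact Or.inr ⟨h, sq8 s h⟩
  have : x % 2 = 1 ∧ y % 2 = 1 ∧ z % 2 = 1 := by
    have hx := key x
    have hy := key y
    have hz := key z
    generalize x ^ 2 = X2 at *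
    generalize y ^ 2 = Y2 at *
    generalize z ^ 2 = Z2 at *
    omega
  obtain ⟨hx1, hy1, hz1⟩ := this
  obtain ⟨p, hp⟩ := odd_sq hx1
  obtain ⟨q, hq⟩ := odd_sq hy1
  obtain ⟨r, hr⟩ := odd_sq hz1
  refine ⟨p, q, r, ?_⟩
  rw [hp, hq, hr] at h
  linarith

/-- a pencil of degree `d` -/
theorem exists_AB (d : ℕ) (hd : 1 ≤ d) : ∃ A B : ℚ[X], IsCoprime A B ∧
    A.natDegree ≤ B.natDegree ∧ B.natDegree = d ∧ Sq 0 1 3 7 A B := by
  obtain ⟨p, q, r, h⟩ := triangular d
  have hn : p ≠ 0 ∨ q ≠ 0 ∨ r ≠ 0 := by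
    by_contra hn
    push Not at hn
    obtain ⟨rfl, rfl, rfl⟩ := hn
    simp at h
    omega
  have hg : Gen 0 1 3 7 := by
    unfold Gen
    norm_num
  obtain ⟨A, B, ak, al, ai, aj, bk, bl, bi, bj, hr, hd', hs⟩ := Pt.all hn 0 1 3 7 hg
  refine ⟨A, B, hr.cop, hd'.le, ?_, hs⟩
  have := hd'.sum
  have h2 : (2 * (d : ℤ)) = 2 * B.natDegree := by
    rw [← this, h]; ring
  omega

/-- in a pencil `A + t B` without base points only finitely many members have a double root -/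
lemma finite_bad {A B : ℂ[X]} (hAB : IsCoprime A B) (hB : 1 ≤ B.natDegree) :
    {t : ℂ | ∃ α, A.eval α + t * B.eval α = 0 ∧
      (derivative A).eval α + t * (derivative B).eval α = 0}.Finite := by
  have hW0 : A * derivative B - derivative A * B ≠ 0 := by
    intro h
    have h1 : B ∣ A * derivative B := ⟨derivative A, by linear_combination h⟩
    have h2 : B ∣ derivative B := hAB.symm.dvd_of_dvd_mul_left h1
    have hB0 : B ≠ 0 := by
      rintro rfl
      simp at hB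
    have h3 : derivative B = 0 := by
      by_contra h3
      have h4 := Polynomial.degree_le_of_dvd h2 h3
      have h5 := Polynomial.degree_derivative_lt hB0
      exact absurd h4 (not_le.2 h5)
    have := derivative_eq_zero.1 h3
    omega
  refine ((A * derivative B - derivative A * B).rootSet_finite ℂ |>.image
    (fun α => -(A.eval α) / B.eval α)).subset ?_
  rintro t ⟨α, h1, h2⟩
  have hBα : B.eval α ≠ 0 := by
    intro h
    rw [h, mul_zero, add_zero] at h1
    obtain ⟨u, v, huv⟩ := hAB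
    have := congrArg (eval α) huv
    simp only [eval_add, eval_mul, h, h1, mul_zero, add_zero, eval_one] at this
    exact zero_ne_one this
  refine ⟨α, ?_, ?_⟩
  · rw [mem_rootSet]
    refine ⟨hW0, ?_⟩
    rw [coe_aeval_eq_eval, eval_sub, eval_mul, eval_mul]
    linear_combination ((derivative B).eval α) * h1 - (B.eval α) * h2
  · show -(A.eval α) / B.eval α = t
    rw [div_eq_iff hBα]
    linear_combination -h1

/-- separability, from the absence of a common root in `ℂ` -/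
lemma separable_of {f : ℤ[X]} (h : ∀ α : ℂ, aeval α f = 0 → aeval α (derivative f) ≠ 0) :
    (f.map (Int.castRingHom ℚ)).Separable := by
  unfold Separable
  refine (Polynomial.isCoprime_iff_aeval_ne_zero_of_isAlgClosed (k := ℚ) ℂ _ _).2 ?_
  intro α
  have e1 : aeval α (f.map (Int.castRingHom ℚ)) = aeval α f := by
    rw [aeval_def, aeval_def, eval₂_map]
    congr 1
  have e2 : aeval α (derivative (f.map (Int.castRingHom ℚ))) = aeval α (derivative f) := by
    rw [derivative_map, aeval_def, aeval_def, eval₂_map]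
    congr 1
  rw [e1, e2]
  by_cases h0 : aeval α f = 0
  · exact Or.inr (h α h0)
  · exact Or.inl h0

/-- denominators -/
lemma clear (p : ℚ[X]) : ∃ M : ℤ, M ≠ 0 ∧ ∃ q : ℤ[X], q.map (Int.castRingHom ℚ) = C (M : ℚ) * p := by
  obtain ⟨b, hb, hb'⟩ := IsLocalization.integerNormalization_spec (nonZeroDivisors ℤ) p
  have hb0 : b ≠ 0 := nonZeroDivisors.ne_zero hb
  refine ⟨b, hb0, IsLocalization.integerNormalization (nonZeroDivisors ℤ) p, ?_⟩
  rw [show (Int.castRingHom ℚ) = algebraMap ℤ ℚ from rfl, hb', zsmul_eq_mul]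
  congr 1

/-- the largest absolute value of a coefficient of `f` -/
def height (f : ℤ[X]) : ℕ := f.support.sup (fun i => (f.coeff i).natAbs)

lemma coeff_le_height (f : ℤ[X]) (n : ℕ) : (f.coeff n).natAbs ≤ height f := by
  by_cases h : n ∈ f.support
  · exact Finset.le_sup (f := fun i => (f.coeff i).natAbs) h
  · rw [notMem_support_iff.1 h]
    simp

/-- an integral pencil of degree `d` -/
theorem exists_int (d : ℕ) (hd : 1 ≤ d) : ∃ A B : ℤ[X],
    IsCoprime (A.map (Int.castRingHom ℚ)) (B.map (Int.castRingHom ℚ)) ∧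
    A.natDegree ≤ d ∧ B.natDegree = d ∧
    ∃ (Z W : ℚ[X]) (e : ℚ), Z ≠ 0 ∧
      ((A.map (Int.castRingHom ℚ)).comp (X * (X - 1) * (X - 3) * (X - 7)) +
        X * (B.map (Int.castRingHom ℚ)).comp (X * (X - 1) * (X - 3) * (X - 7))) * Z ^ 2 =
        C (e ^ 2) * X * W ^ 2 := by
  obtain ⟨A, B, hc, hle, hdeg, Z, W, c, hc0, hZ, hsq⟩ := exists_AB d hd
  obtain ⟨M₁, hM₁, a, ha⟩ := clear A
  obtain ⟨M₂, hM₂, b, hb⟩ := clear B
  obtain ⟨N, hN⟩ : ∃ N : ℤ, N = c.den * M₁ * M₂ := ⟨_, rfl⟩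
  have hcd : (c.den : ℤ) ≠ 0 := by exact_mod_cast c.den_ne_zero
  have hN0 : N ≠ 0 := by
    rw [hN]
    exact mul_ne_zero (mul_ne_zero hcd hM₁) hM₂
  have hcn : (c.den : ℚ) * c = c.num := by
    rw [mul_comm]; exact Rat.mul_den_eq_num c
  -- `N ^ 2 c A = (N c.num M₂) (M₁ A)`
  have hA : ((C (N * c.num * M₂) * a : ℤ[X]).map (Int.castRingHom ℚ)) = C (N ^ 2 * c : ℚ) * A := by
    rw [Polynomial.map_mul, map_C, ha, ← mul_assoc, ← C_mul]
    congr 2
    rw [hN]
    simp only [eq_intCast]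
    push_cast
    rw [← hcn]
    ring
  have hB : ((C (N * c.num * M₁) * b : ℤ[X]).map (Int.castRingHom ℚ)) = C (N ^ 2 * c : ℚ) * B := by
    rw [Polynomial.map_mul, map_C, hb, ← mul_assoc, ← C_mul]
    congr 2
    rw [hN]
    simp only [eq_intCast]
    push_cast
    rw [← hcn]
    ring
  have hk : (N ^ 2 * c : ℚ) ≠ 0 := mul_ne_zero (pow_ne_zero _ (by exact_mod_cast hN0)) hc0
  have hinj : Function.Injective (Int.castRingHom ℚ) := Int.cast_injective
  have hu : IsUnit (C (N ^ 2 * c : ℚ)) := isUnit_C.2 (IsUnit.mk0 _ hk)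
  refine ⟨C (N * c.num * M₂) * a, C (N * c.num * M₁) * b, ?_, ?_, ?_, Z, W, N * c, hZ, ?_⟩
  · rw [hA, hB]
    exact (isCoprime_mul_unit_left_left hu _ _).2 ((isCoprime_mul_unit_left_right hu _ _).2 hc)
  · rw [← natDegree_map_eq_of_injective hinj, hA, natDegree_C_mul hk, ← hdeg]
    exact hle
  · rw [← natDegree_map_eq_of_injective hinj, hB, natDegree_C_mul hk, hdeg]
  · rw [hA, hB]
    have hφ : phi 0 1 3 7 = (X * (X - 1) * (X - 3) * (X - 7) : ℚ[X]) := by
      unfold phi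
      simp only [C_0, C_1, C_ofNat, sub_zero]
    rw [hφ] at hsq
    simp only [mul_comp, C_comp]
    have : (C (N ^ 2 * c : ℚ) * A.comp (X * (X - 1) * (X - 3) * (X - 7)) +
        X * (C (N ^ 2 * c : ℚ) * B.comp (X * (X - 1) * (X - 3) * (X - 7)))) * Z ^ 2 =
        C (N ^ 2 * c : ℚ) * ((A.comp (X * (X - 1) * (X - 3) * (X - 7)) +
          X * B.comp (X * (X - 1) * (X - 3) * (X - 7))) * Z ^ 2) := by ring
    rw [this, hsq]
    simp only [C_0, sub_zero, C_mul, C_pow]
    ring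

/-- the members of the pencil -/
noncomputable def mem (A B : ℤ[X]) (t : ℤ) : ℤ[X] := A + C t * B

lemma coeff_mem (A B : ℤ[X]) (t : ℤ) (n : ℕ) : (mem A B t).coeff n = A.coeff n + t * B.coeff n := by
  unfold mem
  rw [coeff_add, coeff_C_mul]

/-- separability of almost all members -/
lemma separable_mem {A B : ℤ[X]}
    (hc : IsCoprime (A.map (Int.castRingHom ℚ)) (B.map (Int.castRingHom ℚ)))
    (hB : 1 ≤ B.natDegree) :
    {t : ℤ | ¬ ((mem A B t).map (Int.castRingHom ℚ)).Separable}.Finite := by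
  have hc' : IsCoprime (A.map (Int.castRingHom ℂ)) (B.map (Int.castRingHom ℂ)) := by
    have := hc.map (mapRingHom (algebraMap ℚ ℂ))
    simp only [coe_mapRingHom, Polynomial.map_map] at this
    have e : (algebraMap ℚ ℂ).comp (Int.castRingHom ℚ) = Int.castRingHom ℂ := RingHom.ext_int _ _
    rwa [e] at this
  have hB' : 1 ≤ (B.map (Int.castRingHom ℂ)).natDegree := by
    rwa [natDegree_map_eq_of_injective Int.cast_injective]
  have hfin := finite_bad hc' hB'
  have hinj : Function.Injective (fun t : ℤ => (t : ℂ)) := Int.cast_injective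
  refine (hfin.preimage hinj.injOn).subset ?_
  intro t ht
  by_contra hbad
  apply ht
  apply separable_of
  intro α h1 h2
  apply hbad
  have hev : ∀ p : ℤ[X], (p.map (Int.castRingHom ℂ)).eval α = aeval α p := by
    intro p
    rw [eval_map, aeval_def]
    congr 1
  refine ⟨α, ?_, ?_⟩
  · rw [hev, hev, ← h1]
    unfold mem
    rw [map_add, map_mul, aeval_C]
    congr 2
  · rw [derivative_map, derivative_map, hev, hev, ← h2]
    unfold mem
    rw [derivative_add, derivative_C_mul, map_add, map_mul, aeval_C]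
    congr 2

/-- **The families of curves.** -/
theorem family (d : ℕ) (hd : 1 ≤ d) : ∃ c : ℕ, ∀ K : ℕ, ∃ f : ℤ[X], f.natDegree = d ∧
    (f.map (Int.castRingHom ℚ)).Separable ∧ K ≤ height f ∧
    ∃ x y : ℤ, y ^ 2 = f.eval x ∧ (height f : ℤ) ^ 4 ≤ c * x := by
  obtain ⟨A, B, hc, hA, hB, Z, W, e, hZ, hsq⟩ := exists_int d hd
  obtain ⟨H, hH⟩ : ∃ H, H = height A + height B := ⟨_, rfl⟩
  refine ⟨128 * H ^ 4, ?_⟩
  intro K
  -- a good parameter
  have f1 : {s : ℕ | ¬ ((mem A B ((s : ℤ) ^ 2)).map (Int.castRingHom ℚ)).Separable}.Finite := by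
    have hinj : Function.Injective (fun s : ℕ => (s : ℤ) ^ 2) := by
      intro a b h
      have h1 : (a : ℤ) ^ 2 = (b : ℤ) ^ 2 := h
      have h2 : a ^ 2 = b ^ 2 := by exact_mod_cast h1
      exact Nat.pow_left_injective (by norm_num : 2 ≠ 0) h2
    exact (separable_mem hc (by omega)).preimage hinj.injOn
  have f2 : {s : ℕ | Z.eval ((s : ℚ) ^ 2) = 0}.Finite := by
    have hinj : Function.Injective (fun s : ℕ => (s : ℚ) ^ 2) := by
      intro a b h
      have h1 : (a : ℚ) ^ 2 = (b : ℚ) ^ 2 := h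
      have h2 : a ^ 2 = b ^ 2 := by exact_mod_cast h1
      exact Nat.pow_left_injective (by norm_num : 2 ≠ 0) h2
    refine ((Z.rootSet_finite ℚ).preimage hinj.injOn).subset ?_
    intro s hs
    rw [Set.mem_preimage, mem_rootSet]
    exact ⟨hZ, by rw [coe_aeval_eq_eval]; exact hs⟩
  have f3 := Set.finite_lt_nat (K + H + 14)
  obtain ⟨s, hs⟩ := ((f1.union f2).union f3).exists_notMem
  rw [Set.mem_union, Set.mem_union, not_or, not_or] at hs
  obtain ⟨⟨g1, g2⟩, g3⟩ := hs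
  have g1' : ((mem A B ((s : ℤ) ^ 2)).map (Int.castRingHom ℚ)).Separable := by
    by_contra h
    exact g1 h
  have g2' : Z.eval ((s : ℚ) ^ 2) ≠ 0 := g2
  have g3' : K + H + 14 ≤ s := by
    by_contra h
    exact g3 (by simpa using h)
  obtain ⟨t, ht⟩ : ∃ t : ℕ, t = s ^ 2 := ⟨_, rfl⟩
  have ht' : ((s : ℤ) ^ 2) = t := by rw [ht]; push_cast; ring
  rw [ht'] at g1'
  have hts : K + H + 14 ≤ t := by
    rw [ht]; nlinarith
  have hBd : B.coeff d ≠ 0 := by
    rw [← hB]
    exact leadingCoeff_ne_zero.2 (by rintro rfl; simp at hB; omega)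
  have hAH : (A.coeff d).natAbs ≤ H := (coeff_le_height A d).trans (by omega)
  have hlow : t ≤ ((mem A B t).coeff d).natAbs + H := by
    rw [coeff_mem]
    have h1 : 1 ≤ (B.coeff d).natAbs := Int.natAbs_pos.2 hBd
    have h2 : ((t : ℤ) * B.coeff d).natAbs = t * (B.coeff d).natAbs := by
      rw [Int.natAbs_mul, Int.natAbs_natCast]
    have h3 : t ≤ ((t : ℤ) * B.coeff d).natAbs := by
      rw [h2]; exact Nat.le_mul_of_pos_right _ h1
    omega
  have hne : (mem A B t).coeff d ≠ 0 := by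
    intro h
    rw [h] at hlow
    simp at hlow
    omega
  have hdeg : (mem A B t).natDegree = d := by
    apply natDegree_eq_of_le_of_coeff_ne_zero _ hne
    unfold mem
    refine (natDegree_add_le _ _).trans (max_le hA ?_)
    exact (natDegree_C_mul_le _ _).trans hB.le
  have hup : height (mem A B t) ≤ 2 * H * t := by
    refine Finset.sup_le fun n _ => ?_
    rw [coeff_mem]
    have h1 : (A.coeff n).natAbs ≤ height A := coeff_le_height A n
    have h2 : (B.coeff n).natAbs ≤ height B := coeff_le_height B n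
    have h3 : (A.coeff n + t * B.coeff n).natAbs ≤ (A.coeff n).natAbs + t * (B.coeff n).natAbs := by
      refine (Int.natAbs_add_le _ _).trans ?_
      rw [Int.natAbs_mul, Int.natAbs_natCast]
    have h4 : (A.coeff n).natAbs ≤ H := by omega
    have h5 : t * (B.coeff n).natAbs ≤ t * H := Nat.mul_le_mul_left _ (by omega)
    have h6 : H ≤ t * H := Nat.le_mul_of_pos_left _ (by omega)
    calc _ ≤ (A.coeff n).natAbs + t * (B.coeff n).natAbs := h3
      _ ≤ t * H + t * H := by omega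
      _ = 2 * H * t := by ring
  refine ⟨mem A B t, hdeg, g1', ?_, (t : ℤ) * (t - 1) * (t - 3) * (t - 7), ?_⟩
  · have := coeff_le_height (mem A B t) d
    omega
  -- the ordinate
  have hval := congrArg (eval ((s : ℚ) ^ 2)) hsq
  simp only [eval_mul, eval_add, eval_comp, eval_sub, eval_X, eval_one, eval_ofNat, eval_pow,
    eval_C] at hval
  obtain ⟨x, hx⟩ : ∃ x : ℤ, x = (t : ℤ) * (t - 1) * (t - 3) * (t - 7) := ⟨_, rfl⟩
  have hxq : ((s : ℚ) ^ 2 * ((s : ℚ) ^ 2 - 1) * ((s : ℚ) ^ 2 - 3) * ((s : ℚ) ^ 2 - 7)) = (x : ℚ) := by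
    rw [hx, ht]
    push_cast
    ring
  rw [hxq] at hval
  have hev : (((mem A B t).eval x : ℤ) : ℚ) = (A.map (Int.castRingHom ℚ)).eval (x : ℚ) +
      (s : ℚ) ^ 2 * (B.map (Int.castRingHom ℚ)).eval (x : ℚ) := by
    have h1 : ∀ p : ℤ[X], (p.map (Int.castRingHom ℚ)).eval (x : ℚ) = ((p.eval x : ℤ) : ℚ) := by
      intro p
      rw [← eq_intCast (Int.castRingHom ℚ) x, eval_map_apply, eq_intCast]
    rw [h1, h1]
    unfold mem
    rw [eval_add, eval_mul, eval_C, ht]
    push_cast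
    ring
  rw [← hev] at hval
  have hsqr : IsSquare (((mem A B t).eval x : ℤ) : ℚ) := by
    refine ⟨e * s * W.eval ((s : ℚ) ^ 2) / Z.eval ((s : ℚ) ^ 2), ?_⟩
    field_simp
    rw [hval]
  rw [Rat.isSquare_intCast_iff] at hsqr
  obtain ⟨y, hy⟩ := hsqr
  rw [← hx]
  refine ⟨y, by rw [hy]; ring, ?_⟩
  have hcast : (height (mem A B t) : ℤ) ≤ 2 * H * t := by exact_mod_cast hup
  have hpow : (height (mem A B t) : ℤ) ^ 4 ≤ (2 * H * t) ^ 4 :=
    pow_le_pow_left₀ (by positivity) hcast 4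
  have ht14 : (14 : ℤ) ≤ t := by
    have : 14 ≤ t := by omega
    exact_mod_cast this
  have hx4 : (t : ℤ) ^ 4 ≤ 8 * x := by
    rw [hx]
    have a1 : (t : ℤ) ≤ 2 * (t - 7) := by linarith
    have a2 : (t : ℤ) ≤ 2 * (t - 3) := by linarith
    have a3 : (t : ℤ) ≤ 2 * (t - 1) := by linarith
    have b1 : (t : ℤ) * t ≤ (2 * (t - 7)) * (2 * (t - 3)) :=
      mul_le_mul a1 a2 (by linarith) (by linarith)
    have b2 : (t : ℤ) * t * t ≤ (2 * (t - 7)) * (2 * (t - 3)) * (2 * (t - 1)) :=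
      mul_le_mul b1 a3 (by linarith) (by nlinarith)
    calc (t : ℤ) ^ 4 = (t * t * t) * t := by ring
      _ ≤ ((2 * (t - 7)) * (2 * (t - 3)) * (2 * (t - 1))) * t :=
        mul_le_mul_of_nonneg_right b2 (by linarith)
      _ = 8 * ((t : ℤ) * (t - 1) * (t - 3) * (t - 7)) := by ring
  calc (height (mem A B t) : ℤ) ^ 4 ≤ (2 * H * t) ^ 4 := hpow
    _ = 16 * (H : ℤ) ^ 4 * t ^ 4 := by ring
    _ ≤ 16 * (H : ℤ) ^ 4 * (8 * x) := mul_le_mul_of_nonneg_left hx4 (by positivity)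
    _ = ((128 * H ^ 4 : ℕ) : ℤ) * x := by push_cast; ring

end Pool.Agent.H715.C4
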