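import Mathlib

/-!
# Reflections of the rational points of a rational elliptic surface

For four rational numbers `k, l, i, j` in general position let `φ = (t - k)(t - l)(t - i)(t - j)`.
The relations `Rel` describe the pencils `A + t B` with `A(φ) + t B(φ) = c (t - k) Z ^ 2`.
-/

set_option autoImplicit false

open Polynomial

namespace Pool.Agent.H715.C4

/-- four rational numbers in general position -/
def Gen (k l i j : ℚ) : Prop :=
  k ≠ l ∧ k ≠ i ∧ k ≠ j ∧ l ≠ i ∧ l ≠ j ∧ i ≠ j ∧ k + l ≠ i + j ∧ k + i ≠ l + j ∧ k + j ≠ l + i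

/-- the relations between the two polynomials of the pencil and the eight factors -/
structure Rel (k l i j : ℚ) (A B ak al ai aj bk bl bi bj : ℚ[X]) : Prop where
  cop : IsCoprime A B
  hk : X * ak * bk = A + C k * B
  hl : al * bl = A + C l * B
  hi : ai * bi = A + C i * B
  hj : aj * bj = A + C j * B
  sum : ak * al * ai * aj + bk * bl * bi * bj = 2 * B ^ 2
  nk : A + C k * B ≠ 0
  nl : A + C l * B ≠ 0
  ni : A + C i * B ≠ 0
  nj : A + C j * B ≠ 0

namespace Rel

variable {k l i j : ℚ} {A B ak al ai aj bk bl bi bj : ℚ[X]}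

lemma ak0 (h : Rel k l i j A B ak al ai aj bk bl bi bj) : ak ≠ 0 := by
  rintro rfl; exact h.nk (by rw [← h.hk]; ring)
lemma al0 (h : Rel k l i j A B ak al ai aj bk bl bi bj) : al ≠ 0 := by
  rintro rfl; exact h.nl (by rw [← h.hl]; ring)
lemma ai0 (h : Rel k l i j A B ak al ai aj bk bl bi bj) : ai ≠ 0 := by
  rintro rfl; exact h.ni (by rw [← h.hi]; ring)
lemma aj0 (h : Rel k l i j A B ak al ai aj bk bl bi bj) : aj ≠ 0 := by
  rintro rfl; exact h.nj (by rw [← h.hj]; ring)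
lemma bk0 (h : Rel k l i j A B ak al ai aj bk bl bi bj) : bk ≠ 0 := by
  rintro rfl; exact h.nk (by rw [← h.hk]; ring)
lemma bl0 (h : Rel k l i j A B ak al ai aj bk bl bi bj) : bl ≠ 0 := by
  rintro rfl; exact h.nl (by rw [← h.hl]; ring)
lemma bi0 (h : Rel k l i j A B ak al ai aj bk bl bi bj) : bi ≠ 0 := by
  rintro rfl; exact h.ni (by rw [← h.hi]; ring)
lemma bj0 (h : Rel k l i j A B ak al ai aj bk bl bi bj) : bj ≠ 0 := by
  rintro rfl; exact h.nj (by rw [← h.hj]; ring)

/-- exchange of the two families of factors -/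
lemma swap (h : Rel k l i j A B ak al ai aj bk bl bi bj) :
    Rel k l i j A B bk bl bi bj ak al ai aj where
  cop := h.cop
  hk := by rw [← h.hk]; ring
  hl := by rw [← h.hl]; ring
  hi := by rw [← h.hi]; ring
  hj := by rw [← h.hj]; ring
  sum := by rw [← h.sum]; ring
  nk := h.nk
  nl := h.nl
  ni := h.ni
  nj := h.nj

/-- exchange of `l` and `i` -/
lemma symmLI (h : Rel k l i j A B ak al ai aj bk bl bi bj) :
    Rel k i l j A B ak ai al aj bk bi bl bj where
  cop := h.cop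
  hk := h.hk
  hl := h.hi
  hi := h.hl
  hj := h.hj
  sum := by rw [← h.sum]; ring
  nk := h.nk
  nl := h.ni
  ni := h.nl
  nj := h.nj

/-- exchange of `i` and `j` -/
lemma symmIJ (h : Rel k l i j A B ak al ai aj bk bl bi bj) :
    Rel k l j i A B ak al aj ai bk bl bj bi where
  cop := h.cop
  hk := h.hk
  hl := h.hl
  hi := h.hj
  hj := h.hi
  sum := by rw [← h.sum]; ring
  nk := h.nk
  nl := h.nl
  ni := h.nj
  nj := h.ni

end Rel

/-- two members of the pencil are coprime -/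
lemma cop_members {A B : ℚ[X]} (h : IsCoprime A B) {r s : ℚ} (hrs : r ≠ s) :
    IsCoprime (A + C r * B) (A + C s * B) := by
  obtain ⟨u, v, huv⟩ := h
  have hd : r - s ≠ 0 := sub_ne_zero.2 hrs
  have e : C ((r - s)⁻¹) * (C r - C s : ℚ[X]) = 1 := by
    rw [← C_sub, ← C_mul, inv_mul_cancel₀ hd, C_1]
  -- `B = ((A + r B) - (A + s B)) / (r - s)`, `A = (r (A + s B) - s (A + r B)) / (r - s)`
  refine ⟨C ((r - s)⁻¹) * (v - C s * u), C ((r - s)⁻¹) * (C r * u - v), ?_⟩
  have : C ((r - s)⁻¹) * (v - C s * u) * (A + C r * B) +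
      C ((r - s)⁻¹) * (C r * u - v) * (A + C s * B) =
      (C ((r - s)⁻¹) * (C r - C s)) * (u * A + v * B) := by ring
  rw [this, e, huv, one_mul]

section

variable {k l i j : ℚ} {A B ak al ai aj bk bl bi bj : ℚ[X]}

/-- the new pencil -/
theorem exists_pencil (h : Rel k l i j A B ak al ai aj bk bl bi bj)
    (hB : 1 ≤ B.natDegree) :
    ∃ A' B' : ℚ[X], B * B' = (ai * aj) ^ 2 + X * (bk * bl) ^ 2 ∧
      A * B' + A' * B = -(C (k + l) * (ai * aj) ^ 2) - C (i + j) * (X * (bk * bl) ^ 2) ∧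
      A * A' = C (k * l) * (ai * aj) ^ 2 + C (i * j) * (X * (bk * bl) ^ 2) -
        2 * X * (ai * aj) * (bk * bl) := by
  obtain ⟨U, hU⟩ : ∃ U, U = ai * aj := ⟨_, rfl⟩
  obtain ⟨V, hV⟩ : ∃ V, V = bk * bl := ⟨_, rfl⟩
  rw [← hU, ← hV]
  have hB0 : B ≠ 0 := by
    rintro rfl
    simp at hB
  have hA0 : A ≠ 0 := by
    rintro rfl
    have := h.cop
    rw [isCoprime_zero_left] at this
    have := natDegree_eq_zero_of_isUnit this
    omega
  have e1 : (A + C k * B) * (A + C l * B) = X * V * (ak * al) := by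
    rw [← h.hk, ← h.hl, hV]; ring
  have e2 : (A + C i * B) * (A + C j * B) = U * (bi * bj) := by
    rw [← h.hi, ← h.hj, hU]; ring
  have e3 : U * (ak * al) + V * (bi * bj) = 2 * B ^ 2 := by
    rw [← h.sum, hU, hV]; ring
  have key : (U ^ 2 + X * V ^ 2) * A ^ 2 -
      (-(C (k + l) * U ^ 2) - C (i + j) * (X * V ^ 2)) * A * B +
      (C (k * l) * U ^ 2 + C (i * j) * (X * V ^ 2) - 2 * X * U * V) * B ^ 2 = 0 := by
    have : (U ^ 2 + X * V ^ 2) * A ^ 2 -
      (-(C (k + l) * U ^ 2) - C (i + j) * (X * V ^ 2)) * A * B +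
      (C (k * l) * U ^ 2 + C (i * j) * (X * V ^ 2) - 2 * X * U * V) * B ^ 2 =
      U ^ 2 * ((A + C k * B) * (A + C l * B)) + X * V ^ 2 * ((A + C i * B) * (A + C j * B)) -
        2 * X * U * V * B ^ 2 := by
      simp only [C_add, C_mul]; ring
    rw [this, e1, e2]
    linear_combination (X * U * V) * e3
  obtain ⟨p, hp⟩ : ∃ p, p = U ^ 2 + X * V ^ 2 := ⟨_, rfl⟩
  obtain ⟨q, hq⟩ : ∃ q, q = -(C (k + l) * U ^ 2) - C (i + j) * (X * V ^ 2) := ⟨_, rfl⟩
  obtain ⟨s, hs⟩ : ∃ s, s = C (k * l) * U ^ 2 + C (i * j) * (X * V ^ 2) - 2 * X * U * V := ⟨_, rfl⟩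
  rw [← hp, ← hq, ← hs] at key
  rw [← hp, ← hq, ← hs]
  have d1 : B ∣ p := by
    have : B ∣ p * A ^ 2 := ⟨q * A - s * B, by linear_combination key⟩
    exact (IsCoprime.pow_right h.cop.symm).dvd_of_dvd_mul_right this
  obtain ⟨B', hB'⟩ := d1
  have key2 : B' * A ^ 2 - q * A + s * B = 0 := by
    have : B * (B' * A ^ 2 - q * A + s * B) = 0 := by
      rw [hB'] at key
      linear_combination key
    exact (mul_eq_zero.1 this).resolve_left hB0
  have d2 : A ∣ s := by
    have : A ∣ s * B := ⟨q - B' * A, by linear_combination key2⟩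
    exact h.cop.dvd_of_dvd_mul_right this
  obtain ⟨A', hA'⟩ := d2
  refine ⟨A', B', hB'.symm, ?_, hA'.symm⟩
  have : A * (A * B' + A' * B - q) = 0 := by
    rw [hA'] at key2
    linear_combination key2
  have := (mul_eq_zero.1 this).resolve_left hA0
  linear_combination this

/-- the new pencil has no base point -/
theorem cop_pencil (hg : Gen k l i j) (h : Rel k l i j A B ak al ai aj bk bl bi bj)
    {A' B' : ℚ[X]} (h1 : B * B' = (ai * aj) ^ 2 + X * (bk * bl) ^ 2)
    (h2 : A * B' + A' * B = -(C (k + l) * (ai * aj) ^ 2) - C (i + j) * (X * (bk * bl) ^ 2)) :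
    IsCoprime A' B' := by
  obtain ⟨g1, g2, g3, g4, g5, g6, g7, g8, g9⟩ := hg
  have dk : bk ∣ A + C k * B := ⟨X * ak, by rw [← h.hk]; ring⟩
  have dX : X ∣ A + C k * B := ⟨ak * bk, by rw [← h.hk]; ring⟩
  have dl : bl ∣ A + C l * B := ⟨al, by rw [← h.hl]; ring⟩
  have di : ai ∣ A + C i * B := ⟨bi, by rw [← h.hi]⟩
  have dj : aj ∣ A + C j * B := ⟨bj, by rw [← h.hj]⟩
  have c1 : IsCoprime (ai * aj) X :=
    IsCoprime.mul_left
      (((cop_members h.cop g2.symm).of_isCoprime_of_dvd_left di).of_isCoprime_of_dvd_right dX)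
      (((cop_members h.cop g3.symm).of_isCoprime_of_dvd_left dj).of_isCoprime_of_dvd_right dX)
  have c2 : IsCoprime (ai * aj) bk :=
    IsCoprime.mul_left
      (((cop_members h.cop g2.symm).of_isCoprime_of_dvd_left di).of_isCoprime_of_dvd_right dk)
      (((cop_members h.cop g3.symm).of_isCoprime_of_dvd_left dj).of_isCoprime_of_dvd_right dk)
  have c3 : IsCoprime (ai * aj) bl :=
    IsCoprime.mul_left
      (((cop_members h.cop g4.symm).of_isCoprime_of_dvd_left di).of_isCoprime_of_dvd_right dl)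
      (((cop_members h.cop g5.symm).of_isCoprime_of_dvd_left dj).of_isCoprime_of_dvd_right dl)
  have c4 : IsCoprime ((ai * aj) ^ 2) (X * (bk * bl) ^ 2) :=
    IsCoprime.pow_left (IsCoprime.mul_right c1 (IsCoprime.pow_right (IsCoprime.mul_right c2 c3)))
  obtain ⟨u, v, huv⟩ := c4
  have hδ : i + j - (k + l) ≠ 0 := sub_ne_zero.2 (Ne.symm g7)
  obtain ⟨δ, hδ'⟩ : ∃ δ, δ = (i + j - (k + l))⁻¹ := ⟨_, rfl⟩
  have e : C δ * (C (i + j) - C (k + l) : ℚ[X]) = 1 := by
    rw [← C_sub, ← C_mul, hδ', inv_mul_cancel₀ hδ, C_1]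
  refine ⟨C δ * (u - v) * B, C δ * (C (i + j) * u - C (k + l) * v) * B + C δ * (u - v) * A, ?_⟩
  have : C δ * (u - v) * B * A' +
      (C δ * (C (i + j) * u - C (k + l) * v) * B + C δ * (u - v) * A) * B' =
      C δ * (C (i + j) * u - C (k + l) * v) * (B * B') +
        C δ * (u - v) * (A * B' + A' * B) := by ring
  rw [this, h1, h2]
  linear_combination huv + (u * (ai * aj) ^ 2 + v * (X * (bk * bl) ^ 2)) * e

/-- the new factors -/
theorem exists_factors (hg : Gen k l i j) (h : Rel k l i j A B ak al ai aj bk bl bi bj)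
    {A' B' : ℚ[X]} (h1 : B * B' = (ai * aj) ^ 2 + X * (bk * bl) ^ 2)
    (h2 : A * B' + A' * B = -(C (k + l) * (ai * aj) ^ 2) - C (i + j) * (X * (bk * bl) ^ 2))
    (h3 : A * A' = C (k * l) * (ai * aj) ^ 2 + C (i * j) * (X * (bk * bl) ^ 2) -
        2 * X * (ai * aj) * (bk * bl)) (hB' : 1 ≤ B'.natDegree) :
    ∃ ak' al' bi' bj' : ℚ[X], Rel l k i j A' B' al' ak' aj ai bk bl bi' bj' ∧
      bi * bi' = C ((i - k) * (i - l)) * (ai * aj) - 2 * X * (bk * bl) ∧
      bj * bj' = C ((j - k) * (j - l)) * (ai * aj) - 2 * X * (bk * bl) ∧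
      ak * ak' = C ((k - i) * (k - j)) * (bk * bl) - 2 * (ai * aj) ∧
      al * al' = C ((l - i) * (l - j)) * (bk * bl) - 2 * (ai * aj) := by
  have hcop := cop_pencil hg h h1 h2
  obtain ⟨g1, g2, g3, g4, g5, g6, g7, g8, g9⟩ := hg
  have hn : ∀ r : ℚ, A' + C r * B' ≠ 0 := by
    intro r hr
    have : B' ∣ A' := ⟨-C r, by linear_combination hr⟩
    have := (hcop.symm.isUnit_of_dvd' dvd_rfl this)
    have := natDegree_eq_zero_of_isUnit this
    omega
  have dk : bk ∣ A + C k * B := ⟨X * ak, by rw [← h.hk]; ring⟩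
  have dk' : ak ∣ A + C k * B := ⟨X * bk, by rw [← h.hk]; ring⟩
  have dX : X ∣ A + C k * B := ⟨ak * bk, by rw [← h.hk]; ring⟩
  have dl : bl ∣ A + C l * B := ⟨al, by rw [← h.hl]; ring⟩
  have dl' : al ∣ A + C l * B := ⟨bl, by rw [← h.hl]⟩
  have di : ai ∣ A + C i * B := ⟨bi, by rw [← h.hi]⟩
  have di' : bi ∣ A + C i * B := ⟨ai, by rw [← h.hi]; ring⟩
  have dj : aj ∣ A + C j * B := ⟨bj, by rw [← h.hj]⟩
  have dj' : bj ∣ A + C j * B := ⟨aj, by rw [← h.hj]; ring⟩
  have prod : ∀ r : ℚ, (A + C r * B) * (A' + C r * B') =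
      C ((r - k) * (r - l)) * (ai * aj) ^ 2 + C ((r - i) * (r - j)) * (X * (bk * bl) ^ 2) -
        2 * X * (ai * aj) * (bk * bl) := by
    intro r
    have : (A + C r * B) * (A' + C r * B') =
      A * A' + C r * (A * B' + A' * B) + C r ^ 2 * (B * B') := by ring
    rw [this, h1, h2, h3]
    simp only [C_add, C_mul, C_sub]
    ring
  -- `i`
  have ei : bi * (A' + C i * B') = aj * (C ((i - k) * (i - l)) * (ai * aj) - 2 * X * (bk * bl)) := by
    have := prod i
    rw [← h.hi, sub_self, zero_mul, C_0, zero_mul, add_zero] at this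
    apply mul_left_cancel₀ h.ai0
    linear_combination this
  have ej : bj * (A' + C j * B') = ai * (C ((j - k) * (j - l)) * (ai * aj) - 2 * X * (bk * bl)) := by
    have := prod j
    rw [← h.hj, sub_self, mul_zero, C_0, zero_mul, add_zero] at this
    apply mul_left_cancel₀ h.aj0
    linear_combination this
  have ek : ak * (A' + C k * B') = bl * (C ((k - i) * (k - j)) * (bk * bl) - 2 * (ai * aj)) := by
    have := prod k
    rw [← h.hk, sub_self, zero_mul, C_0, zero_mul, zero_add] at this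
    apply mul_left_cancel₀ (mul_ne_zero X_ne_zero h.bk0)
    linear_combination this
  have el : al * (A' + C l * B') =
      (X * bk) * (C ((l - i) * (l - j)) * (bk * bl) - 2 * (ai * aj)) := by
    have := prod l
    rw [← h.hl, sub_self, mul_zero, C_0, zero_mul, zero_add] at this
    apply mul_left_cancel₀ h.bl0
    linear_combination this
  obtain ⟨bi', hbi⟩ : bi ∣ C ((i - k) * (i - l)) * (ai * aj) - 2 * X * (bk * bl) := by
    have hc : IsCoprime bi aj :=
      ((cop_members h.cop g6).of_isCoprime_of_dvd_left di').of_isCoprime_of_dvd_right dj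
    exact hc.dvd_of_dvd_mul_left ⟨_, ei.symm⟩
  obtain ⟨bj', hbj⟩ : bj ∣ C ((j - k) * (j - l)) * (ai * aj) - 2 * X * (bk * bl) := by
    have hc : IsCoprime bj ai :=
      ((cop_members h.cop g6.symm).of_isCoprime_of_dvd_left dj').of_isCoprime_of_dvd_right di
    exact hc.dvd_of_dvd_mul_left ⟨_, ej.symm⟩
  obtain ⟨ak', hak⟩ : ak ∣ C ((k - i) * (k - j)) * (bk * bl) - 2 * (ai * aj) := by
    have hc : IsCoprime ak bl :=
      ((cop_members h.cop g1).of_isCoprime_of_dvd_left dk').of_isCoprime_of_dvd_right dl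
    exact hc.dvd_of_dvd_mul_left ⟨_, ek.symm⟩
  obtain ⟨al', hal⟩ : al ∣ C ((l - i) * (l - j)) * (bk * bl) - 2 * (ai * aj) := by
    have hc : IsCoprime al (X * bk) :=
      IsCoprime.mul_right
        (((cop_members h.cop g1.symm).of_isCoprime_of_dvd_left dl').of_isCoprime_of_dvd_right dX)
        (((cop_members h.cop g1.symm).of_isCoprime_of_dvd_left dl').of_isCoprime_of_dvd_right dk)
    exact hc.dvd_of_dvd_mul_left ⟨_, el.symm⟩
  have fi : aj * bi' = A' + C i * B' := by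
    apply mul_left_cancel₀ h.bi0
    rw [ei, hbi]; ring
  have fj : ai * bj' = A' + C j * B' := by
    apply mul_left_cancel₀ h.bj0
    rw [ej, hbj]; ring
  have fk : ak' * bl = A' + C k * B' := by
    apply mul_left_cancel₀ h.ak0
    rw [ek, hak]; ring
  have fl : X * al' * bk = A' + C l * B' := by
    apply mul_left_cancel₀ h.al0
    rw [el, hal]; ring
  refine ⟨ak', al', bi', bj', ⟨hcop, fl, fk, fi, fj, ?_, hn l, hn k, hn i, hn j⟩,
    hbi.symm, hbj.symm, hak.symm, hal.symm⟩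
  -- the sum relation
  have key : (ai * aj) ^ 2 * ((A' + C k * B') * (A' + C l * B')) +
      X * (bk * bl) ^ 2 * ((A' + C i * B') * (A' + C j * B')) -
      2 * X * (ai * aj) * (bk * bl) * B' ^ 2 = 0 := by
    have : (ai * aj) ^ 2 * ((A' + C k * B') * (A' + C l * B')) +
      X * (bk * bl) ^ 2 * ((A' + C i * B') * (A' + C j * B')) -
      2 * X * (ai * aj) * (bk * bl) * B' ^ 2 =
      ((ai * aj) ^ 2 + X * (bk * bl) ^ 2) * A' ^ 2 -
      (-(C (k + l) * (ai * aj) ^ 2) - C (i + j) * (X * (bk * bl) ^ 2)) * A' * B' +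
      (C (k * l) * (ai * aj) ^ 2 + C (i * j) * (X * (bk * bl) ^ 2) -
        2 * X * (ai * aj) * (bk * bl)) * B' ^ 2 := by
      simp only [C_add, C_mul]; ring
    rw [this, ← h1, ← h2, ← h3]
    ring
  rw [← fi, ← fj, ← fk, ← fl] at key
  have hne : X * (ai * aj) * (bk * bl) ≠ 0 :=
    mul_ne_zero (mul_ne_zero X_ne_zero (mul_ne_zero h.ai0 h.aj0)) (mul_ne_zero h.bk0 h.bl0)
  apply mul_left_cancel₀ hne
  linear_combination key

end

end Pool.Agent.H715.C4
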