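import Pool.Agent.H715.C4.State

/-!
# All points of the lattice
-/

set_option autoImplicit false
set_option linter.unusedSimpArgs false

open Polynomial

namespace Pool.Agent.H715.C4

/-- the first state -/
theorem St.base {k l i j : ℚ} (hg : Gen k l i j) : St k l i j 0 0 1 1 := by
  obtain ⟨g1, g2, g3, g4, g5, g6, g7, g8, g9⟩ := hg
  obtain ⟨u, hu⟩ : ∃ u, u = (i - l) * (j - l) := ⟨_, rfl⟩
  have hu0 : u ≠ 0 := by
    rw [hu]
    exact mul_ne_zero (sub_ne_zero.2 g4.symm) (sub_ne_zero.2 g5.symm)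
  obtain ⟨v, hv⟩ : ∃ v, v = k + l - i - j := ⟨_, rfl⟩
  have hv0 : v ≠ 0 := by
    rw [hv]
    intro h
    exact g7 (by linarith)
  have dB : (C (u ^ 2) + C 4 * X : ℚ[X]).natDegree = 1 := by
    rw [add_comm]
    exact natDegree_linear (by norm_num)
  have dL : ∀ a b : ℚ, b ≠ 0 → (C a + C b * X : ℚ[X]).natDegree = 1 := by
    intro a b hb
    rw [add_comm]
    exact natDegree_linear hb
  have nL : ∀ a b : ℚ, a ≠ 0 ∨ b ≠ 0 → (C a + C b * X : ℚ[X]) ≠ 0 := by
    intro a b hab h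
    have h1 := congrArg (fun p => coeff p 0) h
    have h2 := congrArg (fun p => coeff p 1) h
    simp at h1 h2
    rcases hab with h | h
    · exact h h1
    · exact h h2
  refine ⟨C (-(u ^ 2 * k)) + C (4 * (l - i - j)) * X, C (u ^ 2) + C 4 * X,
    C (2 * v), C (u ^ 2 * (l - k)) + C (4 * (2 * l - i - j)) * X, C (j - l), C (i - l),
    C 2, C 1, C ((i - l) * (i - k) * u) + C (-4) * X, C ((j - l) * (j - k) * u) + C (-4) * X,
    ?_, ?_, ?_⟩
  · refine ⟨?_, ?_, ?_, ?_, ?_, ?_, ?_, ?_, ?_, ?_⟩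
    · refine ⟨C (-(u ^ 2 * v)⁻¹), C ((u ^ 2 * v)⁻¹ * (l - i - j)), ?_⟩
      have hw : u ^ 2 * v ≠ 0 := mul_ne_zero (pow_ne_zero _ hu0) hv0
      have : C (-(u ^ 2 * v)⁻¹) * (C (-(u ^ 2 * k)) + C (4 * (l - i - j)) * X) +
          C ((u ^ 2 * v)⁻¹ * (l - i - j)) * (C (u ^ 2) + C 4 * X) =
          C ((u ^ 2 * v)⁻¹ * (u ^ 2 * (k + l - i - j))) := by
        simp only [C_add, C_sub, C_mul, C_neg, C_pow]
        ring
      rw [this, ← hv, inv_mul_cancel₀ hw, C_1]
    · rw [hv]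
      simp only [C_add, C_sub, C_mul, C_neg, C_pow, C_ofNat]
      ring
    · simp only [C_add, C_sub, C_mul, C_neg, C_pow, C_ofNat, C_1]
      ring
    · rw [hu]
      simp only [C_add, C_sub, C_mul, C_neg, C_pow, C_ofNat, C_1]
      ring
    · rw [hu]
      simp only [C_add, C_sub, C_mul, C_neg, C_pow, C_ofNat, C_1]
      ring
    · rw [hu, hv]
      simp only [C_add, C_sub, C_mul, C_neg, C_pow, C_ofNat, C_1]
      ring
    · have : C (-(u ^ 2 * k)) + C (4 * (l - i - j)) * X + C k * (C (u ^ 2) + C 4 * X) =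
          C 0 + C (4 * v) * X := by
        rw [hv]
        simp only [C_add, C_sub, C_mul, C_neg, C_pow, C_ofNat, C_0]
        ring
      rw [this]
      exact nL _ _ (Or.inr (mul_ne_zero (by norm_num) hv0))
    · have : C (-(u ^ 2 * k)) + C (4 * (l - i - j)) * X + C l * (C (u ^ 2) + C 4 * X) =
          C (u ^ 2 * (l - k)) + C (4 * (2 * l - i - j)) * X := by
        simp only [C_add, C_sub, C_mul, C_neg, C_pow, C_ofNat]
        ring
      rw [this]
      exact nL _ _ (Or.inl (mul_ne_zero (pow_ne_zero _ hu0) (sub_ne_zero.2 g1.symm)))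
    · have : C (-(u ^ 2 * k)) + C (4 * (l - i - j)) * X + C i * (C (u ^ 2) + C 4 * X) =
          C (u ^ 2 * (i - k)) + C (4 * (l - j)) * X := by
        simp only [C_add, C_sub, C_mul, C_neg, C_pow, C_ofNat]
        ring
      rw [this]
      exact nL _ _ (Or.inl (mul_ne_zero (pow_ne_zero _ hu0) (sub_ne_zero.2 g2.symm)))
    · have : C (-(u ^ 2 * k)) + C (4 * (l - i - j)) * X + C j * (C (u ^ 2) + C 4 * X) =
          C (u ^ 2 * (j - k)) + C (4 * (l - i)) * X := by
        simp only [C_add, C_sub, C_mul, C_neg, C_pow, C_ofNat]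
        ring
      rw [this]
      exact nL _ _ (Or.inl (mul_ne_zero (pow_ne_zero _ hu0) (sub_ne_zero.2 g3.symm)))
  · refine ⟨by rw [natDegree_C]; rfl, by rw [natDegree_C]; rfl,
      by rw [dL _ _ (by norm_num)]; rfl, by rw [dL _ _ (by norm_num)]; rfl, ?_, ?_, ?_⟩
    · rw [dB]; norm_num
    · rw [dB]
      rw [add_comm]
      exact natDegree_linear_le
    · rw [dB]
  · refine ⟨1, C u - C 2 * (X - C i) * (X - C j), 1, one_ne_zero, one_ne_zero, ?_⟩
    simp only [add_comp, mul_comp, C_comp, X_comp]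
    unfold phi
    rw [hu]
    simp only [C_add, C_sub, C_mul, C_neg, C_pow, C_ofNat, C_1]
    ring

/-- the point of the lattice with the coordinates `p`, `q`, `r` -/
def Pt (p q r : ℤ) : Prop :=
  ∀ k l i j : ℚ, Gen k l i j → St k l i j (p ^ 2 + q ^ 2 + r ^ 2 - p - q - r)
    (p ^ 2 + q ^ 2 + r ^ 2 - p) (p ^ 2 + q ^ 2 + r ^ 2 - q) (p ^ 2 + q ^ 2 + r ^ 2 - r)

lemma Gen.symmLI {k l i j : ℚ} (h : Gen k l i j) : Gen k i l j := by
  obtain ⟨g1, g2, g3, g4, g5, g6, g7, g8, g9⟩ := h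
  exact ⟨g2, g1, g3, g4.symm, g6, g5, g8, g7, by rw [add_comm i l]; exact g9⟩

lemma Gen.symmIJ {k l i j : ℚ} (h : Gen k l i j) : Gen k l j i := by
  obtain ⟨g1, g2, g3, g4, g5, g6, g7, g8, g9⟩ := h
  exact ⟨g1, g3, g2, g5, g4, g6.symm, by rw [add_comm j i]; exact g7, g9, g8⟩

lemma Gen.symmKL {k l i j : ℚ} (h : Gen k l i j) : Gen l k i j := by
  obtain ⟨g1, g2, g3, g4, g5, g6, g7, g8, g9⟩ := h
  exact ⟨g1.symm, g4, g5, g2, g3, g6, by rw [add_comm l k]; exact g7, g9.symm, g8.symm⟩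

lemma Pt.symm12 {p q r : ℤ} (h : Pt p q r) : Pt q p r := by
  intro k l i j hg
  have := (h k i l j hg.symmLI).symmLI
  convert this using 1 <;> ring

lemma Pt.symm23 {p q r : ℤ} (h : Pt p q r) : Pt p r q := by
  intro k l i j hg
  have := (h k l j i hg.symmIJ).symmIJ
  convert this using 1 <;> ring

lemma hex_pos {p q r : ℤ} (h : p ≠ 0 ∨ q ≠ 0 ∨ r ≠ 0) :
    1 ≤ p * (2 * p - 1) + q * (2 * q - 1) + r * (2 * r - 1) := by
  have key : ∀ s : ℤ, 0 ≤ s * (2 * s - 1) := by
    intro s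
    rcases le_or_gt s 0 with h | h
    · nlinarith
    · nlinarith
  have key2 : ∀ s : ℤ, s ≠ 0 → 1 ≤ s * (2 * s - 1) := by
    intro s hs
    rcases lt_or_gt_of_ne hs with h | h
    · nlinarith
    · nlinarith
  have hp := key p
  have hq := key q
  have hr := key r
  rcases h with h | h | h
  · have := key2 _ h; linarith
  · have := key2 _ h; linarith
  · have := key2 _ h; linarith

lemma Pt.one_sub {p q r : ℤ} (h : Pt p q r) (hn : 1 - p ≠ 0 ∨ q ≠ 0 ∨ r ≠ 0) :
    Pt (1 - p) q r := by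
  intro k l i j hg
  have hs := (h l k j i hg.symmIJ.symmKL)
  have hpos := hex_pos hn
  have := (hs.step₁ hg.symmIJ.symmKL (by nlinarith)).symmIJ
  convert this using 1 <;> ring

lemma Pt.neg {p q r : ℤ} (h : Pt p q r) (hn : p ≠ 0 ∨ q ≠ 0 ∨ r ≠ 0) :
    Pt (-p) q r := by
  intro k l i j hg
  have hs := (h l k j i hg.symmIJ.symmKL)
  have hn' : -p ≠ 0 ∨ q ≠ 0 ∨ r ≠ 0 := by
    rcases hn with h | h | h
    · exact Or.inl (neg_ne_zero.2 h)
    · exact Or.inr (Or.inl h)
    · exact Or.inr (Or.inr h)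
  have hpos := hex_pos hn'
  have := (hs.step₂ hg.symmIJ.symmKL (by nlinarith)).symmIJ
  convert this using 1 <;> ring

lemma Pt.base : Pt 1 0 0 := by
  intro k l i j hg
  have := St.base hg
  convert this using 1 <;> norm_num

/-- the first coordinate can be changed if another coordinate is not zero -/
lemma Pt.first {p q r : ℤ} (h : Pt p q r) (hn : q ≠ 0 ∨ r ≠ 0) (s : ℤ) : Pt s q r := by
  have up : ∀ n : ℕ, Pt (p + n) q r ∧ Pt (p - n) q r := by
    intro n
    induction n with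
    | zero => simpa using h
    | succ n ih =>
      obtain ⟨h1, h2⟩ := ih
      constructor
      · have := (h1.neg (Or.inr hn)).one_sub (Or.inr hn)
        convert this using 1
        push_cast; ring
      · have := (h2.one_sub (Or.inr hn)).neg (Or.inr hn)
        convert this using 1
        push_cast; ring
  rcases le_total p s with hps | hps
  · obtain ⟨n, hn'⟩ := Int.eq_ofNat_of_zero_le (sub_nonneg.2 hps)
    have := (up n).1
    rw [← hn'] at this
    convert this using 1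
    ring
  · obtain ⟨n, hn'⟩ := Int.eq_ofNat_of_zero_le (sub_nonneg.2 hps)
    have := (up n).2
    rw [← hn'] at this
    convert this using 1
    ring

/-- the first axis -/
lemma Pt.axis (n : ℕ) : Pt (n + 1) 0 0 ∧ Pt (-(n + 1)) 0 0 := by
  induction n with
  | zero =>
    have h1 : Pt 1 0 0 := Pt.base
    have h2 := h1.neg (Or.inl one_ne_zero)
    exact ⟨by simpa using h1, by simpa using h2⟩
  | succ n ih =>
    have h1 := ih.2.one_sub (Or.inl (by omega))
    have h2 : Pt ((n + 1 : ℕ) + 1 : ℤ) 0 0 := by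
      convert h1 using 1
      push_cast; ring
    exact ⟨h2, h2.neg (Or.inl (by omega))⟩

/-- all points but the origin -/
theorem Pt.all {p q r : ℤ} (h : p ≠ 0 ∨ q ≠ 0 ∨ r ≠ 0) : Pt p q r := by
  have h1 : Pt r 1 0 := (Pt.base.symm12).first (Or.inl one_ne_zero) r
  have h2 : Pt q r 1 := (h1.symm23.symm12).first (Or.inr one_ne_zero) q
  have h3 : Pt 1 q r := h2.symm23.symm12
  by_cases hqr : q ≠ 0 ∨ r ≠ 0
  · exact h3.first hqr p
  · push Not at hqr
    obtain ⟨rfl, rfl⟩ := hqr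
    have hp : p ≠ 0 := by simpa using h
    rcases lt_or_gt_of_ne hp with h | h
    · obtain ⟨n, hn⟩ := Int.eq_ofNat_of_zero_le (show 0 ≤ -p - 1 by omega)
      have := (Pt.axis n).2
      rw [← hn] at this
      convert this using 1
      ring
    · obtain ⟨n, hn⟩ := Int.eq_ofNat_of_zero_le (show 0 ≤ p - 1 by omega)
      have := (Pt.axis n).1
      rw [← hn] at this
      convert this using 1
      ring

end Pool.Agent.H715.C4
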