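import Pool.Agent.H715.C4.Core

/-!
# The states and the two kinds of reflections
-/

set_option autoImplicit false

open Polynomial

namespace Pool.Agent.H715.C4

/-- the quartic polynomial -/
noncomputable def phi (k l i j : ℚ) : ℚ[X] := (X - C k) * (X - C l) * (X - C i) * (X - C j)

/-- `A(φ) + t B(φ)` is a constant times `t - k` times the square of a rational function -/
def Sq (k l i j : ℚ) (A B : ℚ[X]) : Prop :=
  ∃ (Z W : ℚ[X]) (c : ℚ), c ≠ 0 ∧ Z ≠ 0 ∧
    (A.comp (phi k l i j) + X * B.comp (phi k l i j)) * Z ^ 2 = C c * (X - C k) * W ^ 2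

/-- the degrees -/
structure Deg (A B bk bl bi bj : ℚ[X]) (βk βl βi βj : ℤ) : Prop where
  k : (bk.natDegree : ℤ) = βk
  l : (bl.natDegree : ℤ) = βl
  i : (bi.natDegree : ℤ) = βi
  j : (bj.natDegree : ℤ) = βj
  sum : βk + βl + βi + βj = 2 * B.natDegree
  le : A.natDegree ≤ B.natDegree
  pos : 1 ≤ B.natDegree

/-- the state -/
def St (k l i j : ℚ) (βk βl βi βj : ℤ) : Prop :=
  ∃ A B ak al ai aj bk bl bi bj : ℚ[X], Rel k l i j A B ak al ai aj bk bl bi bj ∧
    Deg A B bk bl bi bj βk βl βi βj ∧ Sq k l i j A B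

lemma St.symmLI {k l i j : ℚ} {βk βl βi βj : ℤ} (h : St k l i j βk βl βi βj) :
    St k i l j βk βi βl βj := by
  obtain ⟨A, B, ak, al, ai, aj, bk, bl, bi, bj, hr, hd, Z, W, c, hc, hZ, e⟩ := h
  refine ⟨A, B, ak, ai, al, aj, bk, bi, bl, bj, hr.symmLI,
    ⟨hd.k, hd.i, hd.l, hd.j, by rw [← hd.sum]; ring, hd.le, hd.pos⟩, Z, W, c, hc, hZ, ?_⟩
  rw [← e]
  have : phi k i l j = phi k l i j := by unfold phi; ring
  rw [this]

lemma St.symmIJ {k l i j : ℚ} {βk βl βi βj : ℤ} (h : St k l i j βk βl βi βj) :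
    St k l j i βk βl βj βi := by
  obtain ⟨A, B, ak, al, ai, aj, bk, bl, bi, bj, hr, hd, Z, W, c, hc, hZ, e⟩ := h
  refine ⟨A, B, ak, al, aj, ai, bk, bl, bj, bi, hr.symmIJ,
    ⟨hd.k, hd.l, hd.j, hd.i, by rw [← hd.sum]; ring, hd.le, hd.pos⟩, Z, W, c, hc, hZ, ?_⟩
  rw [← e]
  have : phi k l j i = phi k l i j := by unfold phi; ring
  rw [this]

lemma phi_ne (k l i j : ℚ) : phi k l i j ≠ 0 :=
  mul_ne_zero (mul_ne_zero (mul_ne_zero (X_sub_C_ne_zero _) (X_sub_C_ne_zero _))
    (X_sub_C_ne_zero _)) (X_sub_C_ne_zero _)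

/-- the class of the new pencil -/
lemma Sq.step {k l i j : ℚ} {A B A' B' U V : ℚ[X]} (h : Sq k l i j A B)
    (hne : A.comp (phi k l i j) + X * B.comp (phi k l i j) ≠ 0)
    (h1 : B * B' = U ^ 2 + X * V ^ 2)
    (h2 : A * B' + A' * B = -(C (k + l) * U ^ 2) - C (i + j) * (X * V ^ 2))
    (h3 : A * A' = C (k * l) * U ^ 2 + C (i * j) * (X * V ^ 2) - 2 * X * U * V) :
    Sq l k i j A' B' := by
  obtain ⟨Z, W, c, hc, hZ, e⟩ := h
  have hphi : phi l k i j = phi k l i j := by unfold phi; ring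
  obtain ⟨φ, hφ⟩ : ∃ φ, φ = phi k l i j := ⟨_, rfl⟩
  have g1 := congrArg (fun p => p.comp φ) h1
  have g2 := congrArg (fun p => p.comp φ) h2
  have g3 := congrArg (fun p => p.comp φ) h3
  simp only [mul_comp, add_comp, sub_comp, neg_comp, pow_comp, X_comp, C_comp, ofNat_comp] at g1 g2 g3
  rw [← hφ] at e hne
  have prod : (A.comp φ + X * B.comp φ) * (A'.comp φ + X * B'.comp φ) =
      (X - C k) * (X - C l) * (U.comp φ - V.comp φ * (X - C i) * (X - C j)) ^ 2 := by
    have : (A.comp φ + X * B.comp φ) * (A'.comp φ + X * B'.comp φ) =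
      A.comp φ * A'.comp φ + X * (A.comp φ * B'.comp φ + A'.comp φ * B.comp φ) +
        X ^ 2 * (B.comp φ * B'.comp φ) := by ring
    rw [this, g1, g2, g3]
    have hφ' : φ = (X - C k) * (X - C l) * (X - C i) * (X - C j) := hφ
    simp only [C_add, C_mul]
    linear_combination ((X - C i) * (X - C j) * (V.comp φ) ^ 2 - 2 * U.comp φ * V.comp φ) * hφ'
  refine ⟨C c * W, (U.comp φ - V.comp φ * (X - C i) * (X - C j)) * Z, c, hc, ?_, ?_⟩
  · refine mul_ne_zero (C_ne_zero.2 hc) ?_
    rintro rfl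
    rw [zero_pow two_ne_zero, mul_zero] at e
    rcases mul_eq_zero.1 e with e | e
    · exact hne e
    · exact hZ (pow_eq_zero_iff two_ne_zero |>.1 e)
  · rw [hphi, ← hφ]
    have hne2 : (A.comp φ + X * B.comp φ) * (X - C k) ≠ 0 := mul_ne_zero hne (X_sub_C_ne_zero _)
    apply mul_left_cancel₀ hne2
    have : (A.comp φ + X * B.comp φ) * (X - C k) *
        ((A'.comp φ + X * B'.comp φ) * (C c * W) ^ 2) =
        ((A.comp φ + X * B.comp φ) * (A'.comp φ + X * B'.comp φ)) *
          (C c * (C c * (X - C k) * W ^ 2)) := by ring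
    rw [this, ← e, prod]
    ring

/-- `A(φ) + t B(φ) ≠ 0` -/
lemma comp_ne {k l i j : ℚ} {A B : ℚ[X]} (hle : A.natDegree ≤ B.natDegree) (hpos : 1 ≤ B.natDegree) :
    A.comp (phi k l i j) + X * B.comp (phi k l i j) ≠ 0 := by
  have hB0 : B ≠ 0 := by
    rintro rfl
    simp at hpos
  have hφ : (phi k l i j).natDegree = 4 := by
    unfold phi
    rw [natDegree_mul, natDegree_mul, natDegree_mul, natDegree_X_sub_C, natDegree_X_sub_C,
      natDegree_X_sub_C, natDegree_X_sub_C]
    all_goals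
      first
        | exact X_sub_C_ne_zero _
        | exact mul_ne_zero (X_sub_C_ne_zero _) (X_sub_C_ne_zero _)
        | exact mul_ne_zero (mul_ne_zero (X_sub_C_ne_zero _) (X_sub_C_ne_zero _)) (X_sub_C_ne_zero _)
  have hBc : B.comp (phi k l i j) ≠ 0 := by
    intro h
    have := congrArg natDegree h
    rw [natDegree_comp, hφ, natDegree_zero] at this
    omega
  intro h
  have h1 : (A.comp (phi k l i j)).natDegree = (X * B.comp (phi k l i j)).natDegree := by
    have : A.comp (phi k l i j) = -(X * B.comp (phi k l i j)) := by linear_combination h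
    rw [this, natDegree_neg]
  rw [natDegree_X_mul hBc, natDegree_comp, natDegree_comp, hφ] at h1
  omega

section

variable {k l i j : ℚ} {A B ak al ai aj bk bl bi bj : ℚ[X]} {βk βl βi βj : ℤ}

lemma natDegree_member_le {r : ℚ} (hle : A.natDegree ≤ B.natDegree) :
    (A + C r * B).natDegree ≤ B.natDegree :=
  (natDegree_add_le _ _).trans (max_le hle (natDegree_C_mul_le _ _))

/-- the degrees of the other factors -/
lemma deg_a (h : Rel k l i j A B ak al ai aj bk bl bi bj) (hle : A.natDegree ≤ B.natDegree) :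
    1 + ak.natDegree + bk.natDegree ≤ B.natDegree ∧ al.natDegree + bl.natDegree ≤ B.natDegree ∧
      ai.natDegree + bi.natDegree ≤ B.natDegree ∧ aj.natDegree + bj.natDegree ≤ B.natDegree := by
  refine ⟨?_, ?_, ?_, ?_⟩
  · have := natDegree_member_le (r := k) hle
    rwa [← h.hk, natDegree_mul (mul_ne_zero X_ne_zero h.ak0) h.bk0, natDegree_X_mul h.ak0,
      add_comm ak.natDegree 1] at this
  · have := natDegree_member_le (r := l) hle
    rwa [← h.hl, natDegree_mul h.al0 h.bl0] at this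
  · have := natDegree_member_le (r := i) hle
    rwa [← h.hi, natDegree_mul h.ai0 h.bi0] at this
  · have := natDegree_member_le (r := j) hle
    rwa [← h.hj, natDegree_mul h.aj0 h.bj0] at this

/-- the degree of the new `A` -/
lemma deg_A' {A' B' q : ℚ[X]} (hle : A.natDegree ≤ B.natDegree) (hB0 : B ≠ 0)
    (h2 : A * B' + A' * B = q) (hq : q.natDegree ≤ B.natDegree + B'.natDegree) :
    A'.natDegree ≤ B'.natDegree := by
  by_cases hA' : A' = 0
  · rw [hA', natDegree_zero]; omega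
  have h3 : A' * B = q - A * B' := by rw [← h2]; ring
  have h4 : (A' * B).natDegree ≤ B.natDegree + B'.natDegree := by
    rw [h3]
    refine (natDegree_sub_le _ _).trans (max_le hq ?_)
    exact natDegree_mul_le.trans (by omega)
  rw [natDegree_mul hA' hB0] at h4
  omega

/-- the reflections of the first kind -/
theorem St.step₁ (hg : Gen k l i j) (h : St k l i j βk βl βi βj)
    (hd : βi + βj ≤ 3 * (βk + βl)) :
    St l k i j βk βl (1 + βk + βl - βi) (1 + βk + βl - βj) := by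
  obtain ⟨A, B, ak, al, ai, aj, bk, bl, bi, bj, hr, hdeg, hsq⟩ := h
  obtain ⟨A', B', h1, h2, h3⟩ := exists_pencil hr hdeg.pos
  have hB0 : B ≠ 0 := by
    rintro rfl
    have := hdeg.pos
    simp at this
  obtain ⟨a1, a2, a3, a4⟩ := deg_a hr hdeg.le
  obtain ⟨d1, d2, d3, d4, d5, d6, d7⟩ := hdeg
  have hU : (ai * aj).natDegree = ai.natDegree + aj.natDegree := natDegree_mul hr.ai0 hr.aj0
  have hV : (bk * bl).natDegree = bk.natDegree + bl.natDegree := natDegree_mul hr.bk0 hr.bl0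
  have hU0 : ai * aj ≠ 0 := mul_ne_zero hr.ai0 hr.aj0
  have hV0 : bk * bl ≠ 0 := mul_ne_zero hr.bk0 hr.bl0
  have hUV : (ai * aj).natDegree ≤ (bk * bl).natDegree := by
    rw [hU, hV]
    omega
  have n1 : ((ai * aj) ^ 2).natDegree = 2 * (ai * aj).natDegree := natDegree_pow _ _
  have n2 : (X * (bk * bl) ^ 2).natDegree = 2 * (bk * bl).natDegree + 1 := by
    rw [natDegree_X_mul (pow_ne_zero _ hV0), natDegree_pow]
  have hp : ((ai * aj) ^ 2 + X * (bk * bl) ^ 2).natDegree = 2 * (bk * bl).natDegree + 1 := by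
    rw [natDegree_add_eq_right_of_natDegree_lt, n2]
    rw [n1, n2]; omega
  have hB'0 : B' ≠ 0 := by
    rintro rfl
    rw [mul_zero] at h1
    rw [← h1, natDegree_zero] at hp
    omega
  have hBB : B.natDegree + B'.natDegree = 2 * (bk * bl).natDegree + 1 := by
    rw [← natDegree_mul hB0 hB'0, h1, hp]
  have hB'pos : 1 ≤ B'.natDegree := by
    rw [hV] at hBB
    omega
  obtain ⟨ak', al', bi', bj', hr', e1, e2, e3, e4⟩ := exists_factors hg hr h1 h2 h3 hB'pos
  have hG : ∀ r : ℚ, (C r * (ai * aj) - 2 * X * (bk * bl)).natDegree =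
      (bk * bl).natDegree + 1 := by
    intro r
    have m1 : (C r * (ai * aj)).natDegree ≤ (ai * aj).natDegree := natDegree_C_mul_le _ _
    have m2 : (2 * X * (bk * bl) : ℚ[X]).natDegree = (bk * bl).natDegree + 1 := by
      have : (2 * X * (bk * bl) : ℚ[X]) = C 2 * (X * (bk * bl)) := by
        rw [C_ofNat]
        ring
      rw [this, natDegree_C_mul (by norm_num), natDegree_X_mul hV0]
    rw [natDegree_sub_eq_right_of_natDegree_lt, m2]
    rw [m2]; omega
  have f1 := hG ((i - k) * (i - l))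
  rw [← e1, natDegree_mul hr.bi0 hr'.bi0] at f1
  have f2 := hG ((j - k) * (j - l))
  rw [← e2, natDegree_mul hr.bj0 hr'.bj0] at f2
  refine ⟨A', B', al', ak', aj, ai, bk, bl, bi', bj', hr',
    ⟨d1, d2, ?_, ?_, ?_, ?_, hB'pos⟩, hsq.step (comp_ne d6 d7) h1 h2 h3⟩
  · rw [hV] at f1
    omega
  · rw [hV] at f2
    omega
  · rw [hV] at hBB
    omega
  · refine deg_A' d6 hB0 h2 ?_
    rw [hBB]
    refine (natDegree_sub_le _ _).trans (max_le ?_ ?_)
    · rw [natDegree_neg]
      refine (natDegree_C_mul_le _ _).trans ?_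
      rw [n1]; omega
    · exact (natDegree_C_mul_le _ _).trans (by rw [n2])

/-- the reflections of the second kind -/
theorem St.step₂ (hg : Gen k l i j) (h : St k l i j βk βl βi βj)
    (hd : βk + βl < 3 * (βi + βj)) :
    St l k i j (βi + βj - βl) (βi + βj - βk) βj βi := by
  obtain ⟨A, B, ak, al, ai, aj, bk, bl, bi, bj, hr, hdeg, hsq⟩ := h
  obtain ⟨A', B', h1, h2, h3⟩ := exists_pencil hr.swap hdeg.pos
  have hB0 : B ≠ 0 := by
    rintro rfl
    have := hdeg.pos
    simp at this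
  obtain ⟨a1, a2, a3, a4⟩ := deg_a hr hdeg.le
  obtain ⟨d1, d2, d3, d4, d5, d6, d7⟩ := hdeg
  have hU : (bi * bj).natDegree = bi.natDegree + bj.natDegree := natDegree_mul hr.bi0 hr.bj0
  have hV : (ak * al).natDegree = ak.natDegree + al.natDegree := natDegree_mul hr.ak0 hr.al0
  have hU0 : bi * bj ≠ 0 := mul_ne_zero hr.bi0 hr.bj0
  have hV0 : ak * al ≠ 0 := mul_ne_zero hr.ak0 hr.al0
  have hUV : (ak * al).natDegree + 1 ≤ (bi * bj).natDegree := by
    rw [hU, hV]
    omega
  have n1 : ((bi * bj) ^ 2).natDegree = 2 * (bi * bj).natDegree := natDegree_pow _ _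
  have n2 : (X * (ak * al) ^ 2).natDegree = 2 * (ak * al).natDegree + 1 := by
    rw [natDegree_X_mul (pow_ne_zero _ hV0), natDegree_pow]
  have hp : ((bi * bj) ^ 2 + X * (ak * al) ^ 2).natDegree = 2 * (bi * bj).natDegree := by
    rw [natDegree_add_eq_left_of_natDegree_lt, n1]
    rw [n1, n2]; omega
  have hp0 : (bi * bj) ^ 2 + X * (ak * al) ^ 2 ≠ 0 := by
    intro h0
    rw [h0, natDegree_zero] at hp
    omega
  have hB'0 : B' ≠ 0 := by
    rintro rfl
    rw [mul_zero] at h1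
    exact hp0 h1.symm
  have hBB : B.natDegree + B'.natDegree = 2 * (bi * bj).natDegree := by
    rw [← natDegree_mul hB0 hB'0, h1, hp]
  have hB'pos : 1 ≤ B'.natDegree := by
    rw [hU] at hBB
    omega
  obtain ⟨bk', bl', ai', aj', hr', e1, e2, e3, e4⟩ := exists_factors hg hr.swap h1 h2 h3 hB'pos
  have hH : ∀ r : ℚ, (C r * (ak * al) - 2 * (bi * bj)).natDegree = (bi * bj).natDegree := by
    intro r
    have m1 : (C r * (ak * al)).natDegree ≤ (ak * al).natDegree := natDegree_C_mul_le _ _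
    have m2 : (2 * (bi * bj) : ℚ[X]).natDegree = (bi * bj).natDegree := by
      have : (2 * (bi * bj) : ℚ[X]) = C 2 * (bi * bj) := by rw [C_ofNat]
      rw [this, natDegree_C_mul (by norm_num)]
    rw [natDegree_sub_eq_right_of_natDegree_lt, m2]
    rw [m2]; omega
  have f1 := hH ((k - i) * (k - j))
  rw [← e3, natDegree_mul hr.bk0 hr'.al0] at f1
  have f2 := hH ((l - i) * (l - j))
  rw [← e4, natDegree_mul hr.bl0 hr'.ak0] at f2
  refine ⟨A', B', ak, al, ai', aj', bl', bk', bj, bi, hr'.swap,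
    ⟨?_, ?_, d4, d3, ?_, ?_, hB'pos⟩, hsq.step (comp_ne d6 d7) h1 h2 h3⟩
  · rw [hU] at f2
    omega
  · rw [hU] at f1
    omega
  · rw [hU] at hBB
    omega
  · refine deg_A' d6 hB0 h2 ?_
    rw [hBB]
    refine (natDegree_sub_le _ _).trans (max_le ?_ ?_)
    · rw [natDegree_neg]
      exact (natDegree_C_mul_le _ _).trans (by rw [n1])
    · refine (natDegree_C_mul_le _ _).trans ?_
      rw [n2]; omega

end

end Pool.Agent.H715.C4
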